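import Pool.Agent.H.MP_81ecdf_nt.E

set_option autoImplicit false

namespace Pool.Agent.H.MP_7488b5_nt

open Polynomial WithZero Pool.Agent.H.MP_81ecdf_nt

lemma exists_root4 : ∃ y : PowerSeries F2, y ^ 4 + y + PowerSeries.X = 0 ∧ PowerSeries.X ∣ y := by
  have hH := IsAdicComplete.henselianRing (PowerSeries F2) (Ideal.span {PowerSeries.X})
  obtain ⟨y, hy1, hy2⟩ := hH.is_henselian
    (X ^ 4 + X + C PowerSeries.X) (by monicity!) 0
    (by simp)
    (by
      have h1 : (derivative (X ^ 4 + X + C PowerSeries.X :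
          (PowerSeries F2)[X])).eval 0 = 1 := by
        simp only [derivative_add, derivative_X_pow, derivative_C, derivative_X]
        simp
      rw [h1, map_one]
      exact isUnit_one)
  refine ⟨y, ?_, by simpa [Ideal.mem_span_singleton] using hy2⟩
  simpa only [IsRoot, eval_add, eval_pow, eval_X, eval_C] using hy1

lemma exists_xi : ∃ ξ : K, T * ξ ^ 4 + T * ξ + 1 = 0 ∧ vv ξ = exp (-1) := by
  obtain ⟨y, hy1, z, hz⟩ := exists_root4
  set U : K := ((PowerSeries.X : PowerSeries F2) : K) with hU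
  have hTU : T * U = 1 := by
    rw [T_eq, hU, PowerSeries.coe_X, HahnSeries.single_mul_single]; simp
  have h1 : (y : K) ^ 4 + (y : K) + U = 0 := by
    have := congrArg (HahnSeries.ofPowerSeries ℤ F2) hy1
    simpa only [map_add, map_mul, map_pow, map_one, map_zero] using this
  have vU : vv U = exp (-1) := by
    have := congrArg vv hTU
    rw [vv_mul, vv_T, vv_one] at this
    rw [exp_neg]; exact eq_inv_of_mul_eq_one_right this
  have vz : vv (z : K) ≤ exp 0 := by
    rw [exp_zero]; exact (LaurentSeries.val_le_one_iff_eq_coe F2 _).mpr ⟨z, rfl⟩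
  have vy : vv (y : K) ≤ exp (-1) := by
    rw [hz, PowerSeries.coe_mul]
    exact vv_mono (vv_mul_le vU.le vz) (by omega)
  refine ⟨y, by linear_combination T * h1 - hTU, ?_⟩
  have h2 : (y : K) = U + (y : K) ^ 4 := by
    linear_combination h1 - (U + (y : K) ^ 4) * two_zero
  rw [h2, vv_add_eq, vU]
  rw [vU]
  exact lt_of_le_of_lt (vv_pow_le vy 4) (by rw [exp_lt_exp]; omega)

lemma approx {ξ : K} (h : T * ξ ^ 4 + T * ξ + 1 = 0) (j : ℕ) :
    ∃ r : F2[X], T ^ 4 ^ j * (ξ - ξ ^ (4 * 4 ^ j)) = emb (X * r + 1) := by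
  have h0 : T * ξ = 1 + T * ξ ^ 4 := by linear_combination h - (1 + T * ξ ^ 4) * two_zero
  induction j with
  | zero =>
    refine ⟨0, ?_⟩
    simp only [pow_zero, pow_one, mul_one, mul_zero, zero_add, emb_one]
    linear_combination h0
  | succ j ih =>
    obtain ⟨r, hr⟩ := ih
    have h1 : 4 ^ (j + 1) = 2 ^ (2 * (j + 1)) := by rw [pow_mul]; norm_num
    have h2 := congrArg (· ^ 4 ^ (j + 1)) h0
    rw [h1, frob, ← h1, one_pow, mul_pow, mul_pow, ← pow_mul] at h2
    obtain ⟨m, hm⟩ : ∃ m, 3 * 4 ^ j = m + 1 := ⟨3 * 4 ^ j - 1, by have := Nat.one_le_pow j 4; omega⟩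
    refine ⟨X ^ m * (X * r + 1), ?_⟩
    have h3 : emb (X * (X ^ m * (X * r + 1)) + 1) = T ^ (3 * 4 ^ j) * emb (X * r + 1) + 1 := by
      rw [hm, emb_add, emb_one, emb_mul, emb_mul, emb_pow]
      change T * (T ^ m * _) + 1 = _
      ring
    rw [h3, ← hr]
    have h4 : 4 ^ (j + 1) = 4 * 4 ^ j := by ring
    have h5 : T ^ 4 ^ (j + 1) = T ^ (3 * 4 ^ j) * T ^ 4 ^ j := by rw [← pow_add]; congr 1; ring
    rw [← h4]
    linear_combination h2 + (ξ - ξ ^ 4 ^ (j + 1)) * h5

noncomputable def embH : F2[X] →+* K :=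
  (aeval (HahnSeries.single (-1 : ℤ) (1 : F2) : K)).toRingHom

lemma embH_apply (p : F2[X]) : embH p = emb p := rfl

lemma vv_pow (a : K) (n : ℕ) : vv (a ^ n) = vv a ^ n := map_pow _ _ _

lemma key {ξ : K} (h : T * ξ ^ 4 + T * ξ + 1 = 0) (hv : vv ξ = exp (-1)) (j : ℕ) {α : K}
    {P : F2[X][X]} (hP : Irreducible P) (hα : P.eval₂ embH α = 0) (hd : P.natDegree ≤ 2) {e : ℕ}
    (he : ∀ i, (P.coeff i).natDegree ≤ e) (hm : e < 2 * 4 ^ j) :
    exp (-(3 * (4 ^ j : ℕ) + e : ℤ)) ≤ vv (ξ - α) := by
  obtain ⟨r, hr⟩ := approx h j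
  set m := 4 ^ j with hmdef
  set η := ξ - ξ ^ (4 * m) with hη
  set a := P.coeff 2
  set b := P.coeff 1
  set c := P.coeff 0
  have hPe : P = C a * X ^ 2 + C b * X + C c := by
    conv_lhs => rw [P.as_sum_range_C_mul_X_pow' (n := 3) (by omega)]
    simp only [Finset.sum_range_succ, Finset.sum_range_zero]
    ring
  have hα' : emb a * α ^ 2 + emb b * α + emb c = 0 := by
    rw [hPe] at hα
    simpa only [eval₂_add, eval₂_mul, eval₂_C, eval₂_X, eval₂_pow, embH_apply] using hα
  have hξη : vv (ξ - η) = exp (-(4 * m : ℤ)) := by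
    rw [hη, sub_sub_cancel, vv_pow, hv, ← exp_nsmul]; congr 1; simp
  have hT : T ^ m ≠ 0 := by
    intro h0
    have := vv_Tpow m
    rw [h0] at this
    simp only [vv, map_zero] at this
    exact exp_ne_zero this.symm
  set p := X * r + 1 with hp
  by_cases h0 : a * p ^ 2 + b * p * X ^ m + c * (X ^ m) ^ 2 = 0
  · have hc : IsCoprime (X ^ m : F2[X]) (p ^ 2) := by
      apply IsCoprime.pow
      exact ⟨-r, 1, by rw [hp]; ring⟩
    have hc' : IsCoprime p ((X ^ m : F2[X]) ^ 2) := by
      apply IsCoprime.pow_right; apply IsCoprime.pow_right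
      exact ⟨1, -r, by rw [hp]; ring⟩
    obtain ⟨a', ha'⟩ : X ^ m ∣ a := hc.dvd_of_dvd_mul_right
      ⟨-(b * p + c * X ^ m), by linear_combination h0⟩
    obtain ⟨c', hc'⟩ : p ∣ c := hc'.dvd_of_dvd_mul_right
      ⟨-(a * p + b * X ^ m), by linear_combination h0⟩
    have hp0 : p ≠ 0 := by
      intro h1
      have := congrArg (eval 0) h1
      simp [hp] at this
    have hX : (X ^ m : F2[X]) ≠ 0 := pow_ne_zero _ X_ne_zero
    have hb : b = -(a' * p + c' * X ^ m) := by
      have : (X ^ m * p) * (b + (a' * p + c' * X ^ m)) = 0 := by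
        rw [ha', hc'] at h0; linear_combination h0
      rcases mul_eq_zero.mp this with h1 | h1
      · exact absurd h1 (mul_ne_zero hX hp0)
      · linear_combination h1
    have hf : P = (C (X ^ m) * X - C p) * (C a' * X - C c') := by
      rw [hPe, hb, ha', hc']
      simp only [map_mul, map_neg, map_add]
      ring
    have hdeg : (C (X ^ m : F2[X]) * X - C p).natDegree = 1 := by
      rw [sub_eq_add_neg, ← map_neg]
      exact natDegree_linear hX
    have hu : IsUnit (C a' * X - C c') := by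
      refine (hP.isUnit_or_isUnit hf).resolve_left fun hu => ?_
      rw [natDegree_eq_zero_of_isUnit hu] at hdeg
      exact zero_ne_one hdeg
    have ha0 : a' = 0 := by
      by_contra h1
      have := natDegree_eq_zero_of_isUnit hu
      rw [sub_eq_add_neg, ← map_neg, natDegree_linear h1] at this
      exact one_ne_zero this
    have hc0 : c' ≠ 0 := by
      rintro rfl
      rw [ha0] at hu
      simp at hu
    have hme : m ≤ e := by
      have := he 1
      change b.natDegree ≤ e at this
      rw [hb, ha0, zero_mul, zero_add, natDegree_neg, natDegree_mul hc0 hX, natDegree_X_pow] at this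
      omega
    have hαη : α = η := by
      rw [ha', hb, hc', ha0] at hα'
      simp only [mul_zero, zero_mul, zero_add, emb_zero, emb_neg, emb_mul, emb_pow] at hα'
      change -(_ * T ^ m) * α + _ = 0 at hα'
      rw [← hr] at hα'
      have h2 : emb c' ≠ 0 := fun h3 => hc0 (emb_eq_zero h3)
      have : (emb c' * T ^ m) * (η - α) = 0 := by linear_combination hα'
      rcases mul_eq_zero.mp this with h1 | h1
      · exact absurd h1 (mul_ne_zero h2 hT)
      · exact (sub_eq_zero.mp h1).symm
    rw [hαη, hξη, exp_le_exp]; omega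
  · by_contra hcon
    have h1 := le_exp_sub_one (not_le.mp hcon)
    have hm1 : 1 ≤ m := Nat.one_le_pow _ _ (by norm_num)
    have h2 : vv (η - α) ≤ exp (-(2 * m + e : ℤ) - 1) := by
      have : η - α = (ξ - α) - (ξ - η) := by ring
      rw [this]
      exact vv_sub_le (vv_mono h1 (by omega)) (vv_mono hξη.le (by omega))
    have h3 : vv η ≤ exp 0 := by
      have : η = ξ - (ξ - η) := by ring
      rw [this]
      exact vv_sub_le (vv_mono hv.le (by omega)) (vv_mono hξη.le (by omega))
    have h4 : vv α ≤ exp 0 := by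
      have : α = η - (η - α) := by ring
      rw [this]
      exact vv_sub_le h3 (vv_mono h2 (by omega))
    have h5 : vv (emb a * (η + α) + emb b) ≤ exp (e : ℤ) :=
      vv_add_le (vv_mono (vv_mul_le (vv_emb_le a) (vv_add_le h3 h4)) (by have : a.natDegree ≤ e := he 2; omega))
        (vv_mono (vv_emb_le b) (by have : b.natDegree ≤ e := he 1; omega))
    have h6 : emb (a * p ^ 2 + b * p * X ^ m + c * (X ^ m) ^ 2) =
        (T ^ m * T ^ m) * ((η - α) * (emb a * (η + α) + emb b)) := by
      simp only [emb_add, emb_mul, emb_pow]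
      change _ + _ * T ^ m + _ * (T ^ m) ^ 2 = _
      rw [← hr]
      linear_combination (T ^ m * T ^ m) * hα'
    have h7 := vv_mul_le (vv_mul_le (vv_Tpow m).le (vv_Tpow m).le) (vv_mul_le h2 h5)
    rw [← h6, vv_emb h0, exp_le_exp] at h7
    omega

lemma irr4 : Irreducible (C X * X ^ 4 + C X * X + 1 : F2[X][X]) := by
  have h1 : Irreducible (C (X ^ 4 + X) * X + C 1 : F2[X][X]) := by
    apply irreducible_C_mul_X_add_C
    · have : (X ^ 4 + X : F2[X]).Monic := by monicity!
      exact this.ne_zero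
    · exact isRelPrime_one_right
  have h2 := (MulEquiv.irreducible_iff (Bivariate.swap (R := F2))).mpr h1
  convert h2 using 1
  simp only [map_add, map_mul, map_pow, map_one, Bivariate.swap_X, Bivariate.swap_Y]
  ring

lemma le_neg_order {x : K} {e : ℤ} (h : exp e ≤ vv x) : x ≠ 0 ∧ e ≤ -x.order := by
  constructor
  · rintro rfl
    simp [vv] at h
  · have : vv x ≤ exp (-x.order) := by
      rw [vv_le_iff]
      intro n hn
      exact HahnSeries.coeff_eq_zero_of_lt_order (by omega)
    exact exp_le_exp.mp (h.trans this)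

end Pool.Agent.H.MP_7488b5_nt
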